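import Pool.Agent.helper84.QI.Spec

set_option autoImplicit false

namespace Pool.Agent.QI

/-- the conjugation on the normal subgroup -/
private def CRE_al {H : Type} [Group H] (M : Subgroup H) [M.Normal] (g : H) : M →* M :=
  (MulAut.conjNormal g : M ≃* M).toMonoidHom

private lemma CRE_al_coe {H : Type} [Group H] (M : Subgroup H) [M.Normal] (g : H) (x : M) :
    ((CRE_al M g x : M) : H) = g * x * g⁻¹ := by
  simp [CRE_al]

private lemma CRE_al_mul {H : Type} [Group H] (M : Subgroup H) [M.Normal] (g h : H) (x : M) :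
    CRE_al M (g * h) x = CRE_al M g (CRE_al M h x) := by
  apply Subtype.ext
  rw [CRE_al_coe, CRE_al_coe, CRE_al_coe]
  group

private lemma CRE_al_one {H : Type} [Group H] (M : Subgroup H) [M.Normal] (x : M) :
    CRE_al M 1 x = x := by
  apply Subtype.ext
  rw [CRE_al_coe]
  group

private lemma CRE_al_inj {H : Type} [Group H] (M : Subgroup H) [M.Normal] (g : H) :
    Function.Injective (CRE_al M g) := by
  intro x y h
  have h2 := congrArg (CRE_al M g⁻¹) h
  rw [← CRE_al_mul, ← CRE_al_mul, inv_mul_cancel, CRE_al_one, CRE_al_one] at h2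
  exact h2

private lemma CRE_al_surj {H : Type} [Group H] (M : Subgroup H) [M.Normal] (g : H) :
    Function.Surjective (CRE_al M g) := by
  intro x
  refine ⟨CRE_al M g⁻¹ x, ?_⟩
  rw [← CRE_al_mul, mul_inv_cancel, CRE_al_one]

private lemma CRE_map_map {H : Type} [Group H] (M : Subgroup H) [M.Normal] (g h : H) (K : Subgroup M) :
    (K.map (CRE_al M h)).map (CRE_al M g) = K.map (CRE_al M (g * h)) := by
  rw [Subgroup.map_map]
  refine congrArg (fun f => Subgroup.map f K) ?_
  apply MonoidHom.ext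
  intro x
  rw [MonoidHom.comp_apply, CRE_al_mul]

private lemma CRE_map_one {H : Type} [Group H] (M : Subgroup H) [M.Normal] (K : Subgroup M) :
    K.map (CRE_al M 1) = K := by
  ext x
  rw [Subgroup.mem_map]
  constructor
  · rintro ⟨y, hy, rfl⟩
    rw [CRE_al_one]
    exact hy
  · intro hx
    exact ⟨x, hx, CRE_al_one M x⟩

private lemma CRE_map_mem {H : Type} [Group H] (M : Subgroup H) [M.Normal] (K : Subgroup M) (hK : K.Normal)
    (m : H) (hm : m ∈ M) : K.map (CRE_al M m) = K := by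
  have key : ∀ m : H, m ∈ M → ∀ x ∈ K, CRE_al M m x ∈ K := by
    intro m hm x hx
    have h1 := hK.conj_mem x hx ⟨m, hm⟩
    have h2 : CRE_al M m x = (⟨m, hm⟩ : M) * x * (⟨m, hm⟩ : M)⁻¹ := by
      apply Subtype.ext
      rw [CRE_al_coe]
      rfl
    rw [h2]
    exact h1
  ext x
  rw [Subgroup.mem_map]
  constructor
  · rintro ⟨y, hy, rfl⟩
    exact key m hm y hy
  · intro hx
    refine ⟨CRE_al M m⁻¹ x, key m⁻¹ (M.inv_mem hm) x hx, ?_⟩
    rw [← CRE_al_mul, mul_inv_cancel, CRE_al_one]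

theorem CRE (hZMN : ZMN_stmt) : CRE_stmt := by
  intro H _ _ M _ hfi hbot hsm hnab
  have hfg : Group.FG M := Subgroup.fg_of_index_ne_zero M
  have hnt : Nontrivial M := (Subgroup.nontrivial_iff_ne_bot M).2 hbot
  obtain ⟨K₀, hn₀, ht₀, hm₀⟩ := hZMN M
  let F : H → Subgroup M := fun g => K₀.map (CRE_al M g)
  have hF : ∀ g h : H, (F h).map (CRE_al M g) = F (g * h) := fun g h => CRE_map_map M g h K₀
  let S : Set (Subgroup M) := Set.range F
  have hinv : ∀ g : H, ∀ K ∈ S, K.map (CRE_al M g) ∈ S := by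
    rintro g _ ⟨h, rfl⟩
    exact ⟨g * h, (hF g h).symm⟩
  have htr : ∀ K ∈ S, ∀ K' ∈ S, ∃ g : H, K' = K.map (CRE_al M g) := by
    rintro _ ⟨g, rfl⟩ _ ⟨h, rfl⟩
    refine ⟨h * g⁻¹, ?_⟩
    rw [hF, inv_mul_cancel_right]
  have hfin : S.Finite := by
    have h1 : S ⊆ Set.range (fun q : H ⧸ M => F q.out) := by
      rintro _ ⟨g, rfl⟩
      refine ⟨(QuotientGroup.mk g : H ⧸ M), ?_⟩
      obtain ⟨m, hm⟩ := QuotientGroup.mk_out_eq_mul M g
      have h2 : F (Quotient.out (QuotientGroup.mk g : H ⧸ M)) = F (g * m) := congrArg F hm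
      show F (Quotient.out (QuotientGroup.mk g : H ⧸ M)) = F g
      rw [h2, ← hF g m]
      show (K₀.map (CRE_al M (m : H))).map (CRE_al M g) = F g
      rw [CRE_map_mem M K₀ hn₀ m m.2]
    exact (Set.finite_range _).subset h1
  have hK₀S : K₀ ∈ S := ⟨1, CRE_map_one M K₀⟩
  have hinf : ∀ g : H, ∀ x ∈ sInf S, CRE_al M g x ∈ sInf S := by
    intro g x hx
    rw [Subgroup.mem_sInf] at hx ⊢
    intro K hK
    have h1 := hx _ (hinv g⁻¹ K hK)
    obtain ⟨y, hy, hyx⟩ := Subgroup.mem_map.1 h1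
    have h2 : CRE_al M g x = y := by
      rw [← hyx, ← CRE_al_mul, mul_inv_cancel, CRE_al_one]
    rw [h2]
    exact hy
  have hb : sInf S = ⊥ := by
    by_contra hne
    have hN : ((sInf S).map M.subtype).Normal := by
      constructor
      rintro _ ⟨x, hx, rfl⟩ g
      refine ⟨CRE_al M g x, hinf g x hx, ?_⟩
      exact CRE_al_coe M g x
    have hNne : (sInf S).map M.subtype ≠ ⊥ := by
      intro h
      exact hne ((Subgroup.map_eq_bot_iff_of_injective _ M.subtype_injective).1 h)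
    have hle := hsm _ hN hNne
    have htop : K₀ = ⊤ := by
      rw [eq_top_iff]
      intro x _
      obtain ⟨y, hy, hyx⟩ := Subgroup.mem_map.1 (hle x.2)
      have : y = x := Subtype.ext hyx
      rw [this] at hy
      exact (Subgroup.mem_sInf.1 hy) K₀ hK₀S
    exact ht₀ htop
  have hks : KS S := by
    refine ⟨hfin, ⟨K₀, hK₀S⟩, ?_, ?_, ?_, ?_, hb⟩
    · rintro _ ⟨g, rfl⟩
      exact hn₀.map _ (CRE_al_surj M g)
    · rintro _ ⟨g, rfl⟩ h
      apply ht₀
      have h1 : (K₀.map (CRE_al M g)).comap (CRE_al M g) = K₀ :=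
        Subgroup.comap_map_eq_self_of_injective (CRE_al_inj M g) K₀
      rw [← h1]
      have h2 : K₀.map (CRE_al M g) = ⊤ := h
      rw [h2, Subgroup.comap_top]
    · rintro _ ⟨g, rfl⟩ K' hK' hle
      have h1 : K₀ ≤ K'.comap (CRE_al M g) := Subgroup.map_le_iff_le_comap.1 hle
      have h2 : (K'.comap (CRE_al M g)).map (CRE_al M g) = K' :=
        Subgroup.map_comap_eq_self_of_surjective (CRE_al_surj M g) K'
      rcases hm₀ _ (hK'.comap _) h1 with h | h
      · left
        rw [← h2, h]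
      · right
        rw [← h2, h, ← MonoidHom.range_eq_map]
        exact MonoidHom.range_eq_top.2 (CRE_al_surj M g)
    · intro K hK
      by_contra hc
      push Not at hc
      apply hnab
      intro x hx y hy
      have h1 : ∀ u v : M, u * v * u⁻¹ * v⁻¹ ∈ sInf S := by
        intro u v
        rw [Subgroup.mem_sInf]
        intro K' hK'
        obtain ⟨g, rfl⟩ := htr K hK K' hK'
        obtain ⟨u', rfl⟩ := CRE_al_surj M g u
        obtain ⟨v', rfl⟩ := CRE_al_surj M g v
        refine ⟨u' * v' * u'⁻¹ * v'⁻¹, hc u' v', ?_⟩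
        rw [map_mul, map_mul, map_mul, map_inv, map_inv]
      have h2 := h1 ⟨x, hx⟩ ⟨y, hy⟩
      rw [hb, Subgroup.mem_bot] at h2
      have h3 := congrArg (fun z : M => (z : H)) h2
      have h4 : x * y * x⁻¹ * y⁻¹ = 1 := h3
      calc x * y = (x * y * x⁻¹ * y⁻¹) * (y * x) := by group
        _ = y * x := by rw [h4, one_mul]
  exact ⟨S, hks, hinv, htr⟩

end Pool.Agent.QI
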